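import Pool.Agent.H84.FK.Targets3

/-!
# Module N0 of fk2_modules: `A W = G` for every normal subgroup `W ≠ 1` of a least counterexample
-/

set_option autoImplicit false

namespace Pool.Agent.H3.FK

open Pool.Agent.H84.FK

theorem pf_n0 (hOVA : T_OVA) : T_N0 := by
  intro G _ A A0 B B0 hce W hW hne
  have : Finite G := hce.fin
  have hsup : A ⊔ W = ⊤ := by
    by_contra hL
    have hs : Group.IsSolvable (A ⊔ W : Subgroup G) := (hOVA G A A0 B B0 hce (A ⊔ W) le_sup_left hL).1
    have hWs : Group.IsSolvable W :=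
      Group.isSolvable_of_isSolvable_injective
        (Subgroup.inclusion_injective (le_sup_right : W ≤ A ⊔ W))
    exact hne (hce.quo W hW hWs)
  refine ⟨?_, ?_⟩
  · intro g
    have hg : g ∈ A ⊔ W := by rw [hsup]; trivial
    obtain ⟨a, ha, w, hw, e⟩ := Subgroup.mem_sup_of_normal_right.1 hg
    exact ⟨a, ha, w, hw, e.symm⟩
  · have h1 : W.relIndex (A ⊔ W) = W.relIndex A := Subgroup.relIndex_sup_right (H := A) (K := W)
    rw [hsup, Subgroup.relIndex_top_right] at h1
    have h2 : (⊥ : Subgroup G).relIndex (A ⊓ W) * (A ⊓ W).relIndex A =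
        (⊥ : Subgroup G).relIndex A := Subgroup.relIndex_mul_relIndex _ _ _ bot_le inf_le_left
    rw [Subgroup.relIndex_bot_left, Subgroup.relIndex_bot_left] at h2
    have h3 : (A ⊓ W).relIndex A = W.relIndex A := by
      rw [inf_comm, Subgroup.inf_relIndex_right]
    have h4 : Nat.card W * W.index = Nat.card G := Subgroup.card_mul_index _
    rw [← h2, h3, ← h1, ← h4]
    ring

end Pool.Agent.H3.FK
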