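import Pool.Agent.H84.FK.Targets3

/-!
# Module Z5A of fk2_modules: an element of `B \ B0` which commutes with a central involution of `A`
-/

set_option autoImplicit false

namespace Pool.Agent.H3.FK

open Pool.Agent.H84.FK

theorem pf_z5a (hOVA : T_OVA) (hD2 : T_D2) (hD3 : T_D3) : T_Z5A := by
  intro G _ A A0 B B0 hce u d huA hcu hu2 hune hdB hdn hdu
  have : Finite G := hce.fin
  have hBB : B0 ≤ B := hce.twoB.1
  -- `B0` is normal in `B`
  have hnB : ∀ b ∈ B, ∀ x ∈ B0, b * x * b⁻¹ ∈ B0 := by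
    intro b hb x hx
    by_cases hb0 : b ∈ B0
    · exact B0.mul_mem (B0.mul_mem hb0 hx) (B0.inv_mem hb0)
    · by_contra hn
      have h1 := hce.twoB.2 (b * x * b⁻¹) (B.mul_mem (B.mul_mem hb (hBB hx)) (B.inv_mem hb))
        b hb hn hb0
      have h2 : b = (b * x * b⁻¹ * b) * x⁻¹ := by group
      apply hb0
      rw [h2]
      exact B0.mul_mem h1 (B0.inv_mem hx)
  have hdinv : d⁻¹ ∉ B0 := fun h => hdn (by simpa using B0.inv_mem h)
  have hBd : ∀ b ∈ B, b ∉ B0 → b * d⁻¹ ∈ B0 := fun b hb hb0 =>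
    hce.twoB.2 b hb d⁻¹ (B.inv_mem hdB) hb0 hdinv
  have hdB' : ∀ b ∈ B, b ∉ B0 → d⁻¹ * b ∈ B0 := fun b hb hb0 =>
    hce.twoB.2 d⁻¹ (B.inv_mem hdB) b hb hdinv hb0
  -- overgroups of `A` which contain `d`
  have hK : ∀ L : Subgroup G, A ≤ L → L ≠ ⊤ → d ∈ L → ∀ x ∈ L, x ∈ B0 → x = 1 := by
    intro L hAL hL hdL x hxL hxB
    have hX := (hOVA G A A0 B B0 hce L hAL hL).2 (L ⊓ B0) inf_le_left (inf_le_right.trans hBB)
      (by
        intro b hb y hy
        obtain ⟨hyL, hyB⟩ := hy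
        by_cases hb0 : b ∈ B0
        · have : b * y * b⁻¹ = y := by rw [hce.abB b hb0 y hyB]; group
          rw [this]; exact ⟨hyL, hyB⟩
        · have h1 : b * d⁻¹ ∈ B0 := hBd b hb hb0
          have h2 : d * y * d⁻¹ ∈ B0 := hnB d hdB y hyB
          have h3 : b * y * b⁻¹ = (b * d⁻¹) * (d * y * d⁻¹) * (b * d⁻¹)⁻¹ := by group
          have h4 : (b * d⁻¹) * (d * y * d⁻¹) * (b * d⁻¹)⁻¹ = d * y * d⁻¹ := by
            rw [hce.abB _ h1 _ h2]; group
          rw [h3, h4]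
          exact ⟨L.mul_mem (L.mul_mem hdL hyL) (L.inv_mem hdL), h2⟩)
    have : x ∈ L ⊓ B0 := ⟨hxL, hxB⟩
    rw [hX] at this
    exact Subgroup.mem_bot.1 this
  have hK2 : ∀ L : Subgroup G, A ≤ L → L ≠ ⊤ → d ∈ L → ∀ y ∈ L, y ∈ B → y = 1 ∨ y = d := by
    intro L hAL hL hdL y hyL hyB
    by_cases hy0 : y ∈ B0
    · exact Or.inl (hK L hAL hL hdL y hyL hy0)
    · right
      have := hK L hAL hL hdL (y * d⁻¹) (L.mul_mem hyL (L.inv_mem hdL)) (hBd y hyB hy0)
      exact mul_inv_eq_one.1 this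
  -- the centraliser of `u`
  obtain ⟨M, hM⟩ : ∃ M : Subgroup G, ∀ g : G, g * u = u * g ↔ g ∈ M :=
    ⟨Subgroup.centralizer {u}, fun g => by
      rw [Subgroup.mem_centralizer_singleton_iff]⟩
  have hAM : A ≤ M := fun a ha => (hM a).1 (hcu a ha)
  have hdM : d ∈ M := (hM d).1 hdu
  have hMt : M ≠ ⊤ := by
    intro h
    refine hD2 G A A0 B B0 hce u u hune hune ?_
    intro g
    have hg : g * u = u * g := (hM g).2 (by rw [h]; trivial)
    have : g * u * g⁻¹ = u := by rw [hg]; group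
    rw [this]
  have hd2 : d * d = 1 := hK M hAM hMt hdM _ (M.mul_mem hdM hdM)
    (hce.twoB.2 d hdB d hdB hdn hdn)
  have hmem : ∀ g : G, g ∈ M ↔ (g ∈ A ∨ g * d ∈ A) := by
    intro g
    constructor
    · intro hg
      obtain ⟨a, ha, b, hb, e⟩ := hce.fac g
      have hbM : b ∈ M := by
        have : b = a⁻¹ * g := by rw [e]; group
        rw [this]
        exact M.mul_mem (M.inv_mem (hAM ha)) hg
      rcases hK2 M hAM hMt hdM b hbM hb with h | h
      · left; rw [e, h, mul_one]; exact ha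
      · right; rw [e, h, mul_assoc, hd2, mul_one]; exact ha
    · rintro (h | h)
      · exact hAM h
      · have : g = (g * d) * d⁻¹ := by group
        rw [this]
        exact M.mul_mem (hAM h) (M.inv_mem hdM)
  have hmax : ∀ L : Subgroup G, M ≤ L → L ≠ ⊤ → L = M := by
    intro L hML hL
    refine le_antisymm ?_ hML
    intro g hg
    obtain ⟨a, ha, b, hb, e⟩ := hce.fac g
    have hbL : b ∈ L := by
      have : b = a⁻¹ * g := by rw [e]; group
      rw [this]
      exact L.mul_mem (L.inv_mem (hML (hAM ha))) hg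
    rw [e]
    refine M.mul_mem (hAM ha) ?_
    rcases hK2 L (hAM.trans hML) hL (hML hdM) b hbL hb with h | h
    · rw [h]; exact M.one_mem
    · rw [h]; exact hdM
  refine ⟨M, ⟨huA, hcu, hu2, hune, hdB, hdn, hdu, hd2, hM, hmem, hMt, hmax, ?_, ?_, ?_, ?_⟩⟩
  · intro g
    obtain ⟨a, ha, b, hb, e⟩ := hce.fac g
    by_cases hb0 : b ∈ B0
    · exact ⟨a, hAM ha, b, hb0, e⟩
    · exact ⟨a * d, M.mul_mem (hAM ha) hdM, d⁻¹ * b, hdB' b hb hb0, by rw [e]; group⟩
  · exact fun x hx hx0 => hK M hAM hMt hdM x hx hx0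
  · intro a ha
    have h1 : d * a * d⁻¹ ∈ M := M.mul_mem (M.mul_mem hdM (hAM ha)) (M.inv_mem hdM)
    rcases (hmem _).1 h1 with h | h
    · exact h
    · exfalso
      have h2 : d = (d * a * d⁻¹ * d) * a⁻¹ := by group
      have h3 : d ∈ A := by rw [h2]; exact A.mul_mem h (A.inv_mem ha)
      have h4 : d = 1 := hD3 G A A0 B B0 hce 1 d d h3 hdB (by group)
      exact hdn (by rw [h4]; exact B0.one_mem)
  · intro X hXM hX hn g hg
    have hN : ∀ g : G, (∀ x ∈ X, g * x * g⁻¹ ∈ X) → g ∈ Subgroup.normalizer (X : Set G) :=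
      fun g hg => Subgroup.mem_normalizer_fintype hg
    have hMN : M ≤ Subgroup.normalizer (X : Set G) := fun m hm => hN m (hn m hm)
    by_cases hT : Subgroup.normalizer (X : Set G) = ⊤
    · exfalso
      have hXn : X.Normal := Subgroup.normalizer_eq_top_iff.1 hT
      have hMs : Group.IsSolvable M := (hOVA G A A0 B B0 hce M hAM hMt).1
      have hXs : Group.IsSolvable X :=
        Group.isSolvable_of_isSolvable_injective (Subgroup.inclusion_injective hXM)
      exact hX (hce.quo X hXn hXs)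
    · rw [← hmax _ hMN hT]
      exact hN g hg

end Pool.Agent.H3.FK
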