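import Pool.Agent.H84.FK.Targets2

/-!
# Module LCP of fk2_modules: the common neighbour lemma, abstract form

The proof is the one of module LC of fk_modules (helper50), adapted to the abstract hypothesis.
-/

set_option autoImplicit false

namespace Pool.Agent.H3.FK

open Pool.Agent.H84.FK

/-- the hypotheses of the common neighbour lemma -/
structure Hy (G : Type) [Group G] (z : G) (C : Subgroup G) : Prop where
  zz : z * z = 1
  abC : Ab C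
  fac : ∀ g : G, ∃ c ∈ C, ∃ d : G, d * z = z * d ∧ g = d * c
  tri : ∀ c ∈ C, c * z = z * c → c = 1
  nb : ∀ (x : G) (r : ℕ), r.Prime → r ≠ 2 → orderOf x = r →
      ∀ g : G, (g * z * g⁻¹) * x * (g * z * g⁻¹)⁻¹ = x⁻¹ →
      ∃ h : G, (h * z * h⁻¹) * x = x * (h * z * h⁻¹) ∧
        (∀ g1 : G, (g1 * z * g1⁻¹) * x * (g1 * z * g1⁻¹)⁻¹ = x⁻¹ →
          (g1 * z * g1⁻¹) * (h * z * h⁻¹) = (h * z * h⁻¹) * (g1 * z * g1⁻¹)) ∧
        ∀ g1 : G, (g1 * z * g1⁻¹) * x = x * (g1 * z * g1⁻¹) → g1 * z * g1⁻¹ = h * z * h⁻¹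

variable {G : Type} [Group G] {z : G} {C : Subgroup G}

/-- conjugation transports commutation -/
private lemma comm_conj (h a b : G) (hab : a * b = b * a) :
    (h * a * h⁻¹) * (h * b * h⁻¹) = (h * b * h⁻¹) * (h * a * h⁻¹) := by
  have e1 : (h * a * h⁻¹) * (h * b * h⁻¹) = h * (a * b) * h⁻¹ := by group
  have e2 : (h * b * h⁻¹) * (h * a * h⁻¹) = h * (b * a) * h⁻¹ := by group
  rw [e1, e2, hab]

private lemma comm_of_conj (h a b : G)
    (hab : (h * a * h⁻¹) * (h * b * h⁻¹) = (h * b * h⁻¹) * (h * a * h⁻¹)) : a * b = b * a := by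
  have e1 : (h * a * h⁻¹) * (h * b * h⁻¹) = h * (a * b) * h⁻¹ := by group
  have e2 : (h * b * h⁻¹) * (h * a * h⁻¹) = h * (b * a) * h⁻¹ := by group
  rw [e1, e2] at hab
  exact mul_left_cancel (mul_right_cancel hab)

/-- the common neighbour of the conjugates of `z` which invert `x` -/
private lemma nbr (H : Hy G z C) (x : G) (r : ℕ) (hr : r.Prime) (hr2 : r ≠ 2)
    (hx : orderOf x = r) (m : G) (hm : (m * z * m⁻¹) * x * (m * z * m⁻¹)⁻¹ = x⁻¹) :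
    ∃ h : G, (h⁻¹ * z * h) * x = x * (h⁻¹ * z * h) ∧
      (∀ n : G, (n * z * n⁻¹) * x * (n * z * n⁻¹)⁻¹ = x⁻¹ →
        (h⁻¹ * z * h) * (n * z * n⁻¹) = (n * z * n⁻¹) * (h⁻¹ * z * h)) ∧
      (∀ n : G, (n * z * n⁻¹) * x = x * (n * z * n⁻¹) → n * z * n⁻¹ = h⁻¹ * z * h) := by
  obtain ⟨h, h1, h2, h3⟩ := H.nb x r hr hr2 hx m hm
  refine ⟨h⁻¹, ?_, ?_, ?_⟩
  · rw [inv_inv]
    exact h1
  · intro n hn
    rw [inv_inv]
    exact (h2 n hn).symm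
  · intro n hn
    rw [inv_inv]
    exact h3 n hn

/-- regularity of the action of `C` on the conjugates of `z` -/
private lemma reg (H : Hy G z C) (g : G) : ∃ c ∈ C, g * z * g⁻¹ = c⁻¹ * z * c := by
  obtain ⟨c, hc, d, hdz, e⟩ := H.fac g⁻¹
  refine ⟨c, hc, ?_⟩
  have hg : g = c⁻¹ * d⁻¹ := by
    rw [← inv_inv g, e]
    group
  have e2 : d⁻¹ * z * d = z := by
    rw [mul_assoc, ← hdz]
    group
  have e1 : g * z * g⁻¹ = c⁻¹ * (d⁻¹ * z * d) * c := by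
    rw [hg]; group
  rw [e1, e2]

private lemma reg_inj (H : Hy G z C) {c c' : G} (hc : c ∈ C) (hc' : c' ∈ C)
    (h : c⁻¹ * z * c = c'⁻¹ * z * c') : c = c' := by
  have h1 : (c' * c⁻¹) * z = z * (c' * c⁻¹) := by
    have e1 : (c' * c⁻¹) * z = c' * (c⁻¹ * z * c) * c⁻¹ := by group
    rw [e1, h]
    group
  have h2 : c' * c⁻¹ = 1 :=
    H.tri _ (C.mul_mem hc' (C.inv_mem hc)) h1
  exact (mul_inv_eq_one.1 h2).symm

/-- an element which is not a 2-element has a power of odd prime order -/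
private lemma oddp [Finite G] (w : G) (hw : ∀ k : ℕ, w ^ (2 ^ k) ≠ 1) :
    ∃ (r : ℕ) (j : ℕ), r.Prime ∧ r ≠ 2 ∧ orderOf (w ^ j) = r := by
  have hN : orderOf w ≠ 0 := (orderOf_pos w).ne'
  by_contra hcon
  have h1 : ∀ r : ℕ, r.Prime → r ∣ orderOf w → r = 2 := by
    intro r hr hd
    by_contra h2
    apply hcon
    refine ⟨r, orderOf w / r, hr, h2, ?_⟩
    rw [orderOf_pow' w (Nat.div_pos (Nat.le_of_dvd (orderOf_pos w) hd) hr.pos).ne']
    have h3 : Nat.gcd (orderOf w) (orderOf w / r) = orderOf w / r :=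
      Nat.gcd_eq_right (Nat.div_dvd_of_dvd hd)
    rw [h3, Nat.div_div_self hd hN]
  obtain ⟨k, hk⟩ : ∃ k, orderOf w = 2 ^ k := by
    refine ⟨(orderOf w).primeFactorsList.length, ?_⟩
    apply Nat.eq_prime_pow_of_unique_prime_dvd hN
    intro d hd1 hd2
    exact h1 d hd1 hd2
  apply hw k
  rw [← hk]
  exact pow_orderOf_eq_one w

private lemma comm_pow {a x : G} (j : ℕ) (h : a * x = x * a) : a * x ^ j = x ^ j * a :=
  (Commute.pow_right (show Commute a x from h) j)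

/-- an involution inverting `w` inverts its powers -/
private lemma inv_pow' {a w : G} (j : ℕ) (h : a * w * a⁻¹ = w⁻¹) : a * w ^ j * a⁻¹ = (w ^ j)⁻¹ := by
  rw [← conj_pow, h, inv_pow]

/-- uniqueness of the common neighbour of `z` and `z2` -/
private lemma uniq [Finite G] (H : Hy G z C) (g : G)
    (hw : ∀ k : ℕ, (z * (g * z * g⁻¹)) ^ (2 ^ k) ≠ 1) (n n' : G)
    (h1 : (n * z * n⁻¹) * z = z * (n * z * n⁻¹))
    (h2 : (n * z * n⁻¹) * (g * z * g⁻¹) = (g * z * g⁻¹) * (n * z * n⁻¹))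
    (h3 : (n' * z * n'⁻¹) * z = z * (n' * z * n'⁻¹))
    (h4 : (n' * z * n'⁻¹) * (g * z * g⁻¹) = (g * z * g⁻¹) * (n' * z * n'⁻¹)) :
    n * z * n⁻¹ = n' * z * n'⁻¹ := by
  obtain ⟨r, j, hr, hr2, hj⟩ := oddp _ hw
  have hzi : z⁻¹ = z := inv_eq_of_mul_eq_one_right H.zz
  have hz2 : (g * z * g⁻¹)⁻¹ = g * z * g⁻¹ := by
    have : (g * z * g⁻¹)⁻¹ = g * z⁻¹ * g⁻¹ := by group
    rw [this, hzi]
  have hzw : (1 * z * 1⁻¹) * (z * (g * z * g⁻¹)) ^ j * (1 * z * 1⁻¹)⁻¹ =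
      ((z * (g * z * g⁻¹)) ^ j)⁻¹ := by
    apply inv_pow'
    rw [one_mul, inv_one, mul_one, mul_inv_rev, hz2, hzi]
    have : z * (z * (g * z * g⁻¹)) * z = (z * z) * (g * z * g⁻¹) * z := by group
    rw [this, H.zz, one_mul]
  obtain ⟨h, -, -, hu⟩ := nbr H _ r hr hr2 hj 1 hzw
  have c1 : ∀ m : G, (m * z * m⁻¹) * z = z * (m * z * m⁻¹) →
      (m * z * m⁻¹) * (g * z * g⁻¹) = (g * z * g⁻¹) * (m * z * m⁻¹) →
      m * z * m⁻¹ = h⁻¹ * z * h := by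
    intro m e1 e2
    apply hu
    apply comm_pow
    have : Commute (m * z * m⁻¹) (z * (g * z * g⁻¹)) :=
      Commute.mul_right (show Commute _ _ from e1) (show Commute _ _ from e2)
    exact this
  rw [c1 n h1 h2, c1 n' h3 h4]

/-- the relation between a bad pair and a common neighbour -/
private lemma sq [Finite G] (H : Hy G z C) {γ β : G} (hγ : γ ∈ C) (hβ : β ∈ C)
    (hw : ∀ k : ℕ, (z * (γ⁻¹ * z * γ)) ^ (2 ^ k) ≠ 1)
    (h1 : (β⁻¹ * z * β) * z = z * (β⁻¹ * z * β))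
    (h2 : (β⁻¹ * z * β) * (γ⁻¹ * z * γ) = (γ⁻¹ * z * γ) * (β⁻¹ * z * β)) : γ = β * β := by
  have hc : (γ * β⁻¹)⁻¹ * z * (γ * β⁻¹) = (γ * β⁻¹)⁻¹ * z * (γ * β⁻¹)⁻¹⁻¹ := by group
  have k1 : ((γ * β⁻¹)⁻¹ * z * (γ * β⁻¹)) * z = z * ((γ * β⁻¹)⁻¹ * z * (γ * β⁻¹)) := by
    have h5 := comm_conj β _ _ h2
    have e1 : β * (β⁻¹ * z * β) * β⁻¹ = z := by group
    have e2 : β * (γ⁻¹ * z * γ) * β⁻¹ = (γ * β⁻¹)⁻¹ * z * (γ * β⁻¹) := by group
    rw [e1, e2] at h5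
    exact h5.symm
  have k2 : ((γ * β⁻¹)⁻¹ * z * (γ * β⁻¹)) * (γ⁻¹ * z * γ) =
      (γ⁻¹ * z * γ) * ((γ * β⁻¹)⁻¹ * z * (γ * β⁻¹)) := by
    have h5 := comm_conj (γ * β⁻¹)⁻¹ _ _ h1
    have e3 : β * (γ * β⁻¹) = γ := by
      have := H.abC γ hγ β hβ
      rw [← mul_assoc, ← this]
      group
    have e1 : (γ * β⁻¹)⁻¹ * (β⁻¹ * z * β) * (γ * β⁻¹)⁻¹⁻¹ =
        (β * (γ * β⁻¹))⁻¹ * z * (β * (γ * β⁻¹)) := by group
    have e2 : (γ * β⁻¹)⁻¹ * z * (γ * β⁻¹)⁻¹⁻¹ = (γ * β⁻¹)⁻¹ * z * (γ * β⁻¹) := by group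
    rw [e1, e2, e3] at h5
    exact h5.symm
  have k3 : (γ * β⁻¹)⁻¹ * z * (γ * β⁻¹) = β⁻¹ * z * β := by
    have e1 : ∀ c : G, c⁻¹ * z * c = c⁻¹ * z * c⁻¹⁻¹ := by
      intro c; group
    have hw' : ∀ k : ℕ, (z * (γ⁻¹ * z * γ⁻¹⁻¹)) ^ (2 ^ k) ≠ 1 := by
      intro k
      rw [← e1]
      exact hw k
    rw [e1 (γ * β⁻¹), e1 β]
    apply uniq H γ⁻¹ hw'
    · rw [← e1]; exact k1
    · rw [← e1, ← e1]; exact k2
    · rw [← e1]; exact h1
    · rw [← e1, ← e1]; exact h2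
  have k4 := reg_inj H (C.mul_mem hγ (C.inv_mem hβ)) hβ k3
  rw [← k4]
  rw [k4]
  exact (mul_inv_eq_iff_eq_mul.1 k4)

theorem pf_lcp : T_LCP := by
  intro G _ _ z C zz z1 abC fac tri nb g
  have H : Hy G z C := ⟨zz, abC, fac, tri, nb⟩
  by_contra hcon
  have hw : ∀ k : ℕ, (z * (g * z * g⁻¹)) ^ (2 ^ k) ≠ 1 := by
    intro k hk
    exact hcon ⟨k, hk⟩
  obtain ⟨r, j, hr, hr2, hj⟩ := oddp _ hw
  set x := (z * (g * z * g⁻¹)) ^ j with hx
  have hzi : z⁻¹ = z := inv_eq_of_mul_eq_one_right zz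
  have hz2 : (g * z * g⁻¹)⁻¹ = g * z * g⁻¹ := by
    have : (g * z * g⁻¹)⁻¹ = g * z⁻¹ * g⁻¹ := by group
    rw [this, hzi]
  have hzx : z * x * z⁻¹ = x⁻¹ := by
    apply inv_pow'
    rw [mul_inv_rev, hz2, hzi]
    have : z * (z * (g * z * g⁻¹)) * z = (z * z) * (g * z * g⁻¹) * z := by group
    rw [this, zz, one_mul]
  obtain ⟨h, hcx, hcz, -⟩ := nbr H x r hr hr2 hj 1 (by
    rw [one_mul, inv_one, mul_one]
    exact hzx)
  have hcz1 : (h⁻¹ * z * h) * z = z * (h⁻¹ * z * h) := by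
    have := hcz 1 (by
      rw [one_mul, inv_one, mul_one]
      exact hzx)
    rwa [one_mul, inv_one, mul_one] at this
  obtain ⟨β, hβ, eβ⟩ := reg H h⁻¹
  rw [inv_inv] at eβ
  rw [eβ] at hcx hcz1
  have hzx' : z * x * z = x⁻¹ := by rwa [hzi] at hzx
  have hzx2 : z * x⁻¹ * z = x := by
    have : (z * x * z)⁻¹ = z⁻¹ * x⁻¹ * z⁻¹ := by group
    rw [hzi] at this
    rw [← this, hzx', inv_inv]
  have P : ∀ y : G, z * y⁻¹ * z = y → (∀ k : ℕ, (y * y) ^ (2 ^ k) ≠ 1) →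
      (β⁻¹ * z * β) * y = y * (β⁻¹ * z * β) → y⁻¹ * z * y = (β * β)⁻¹ * z * (β * β) := by
    intro y hy hy2 hcy
    obtain ⟨γ, hγ, eγ⟩ := reg H y⁻¹
    rw [inv_inv] at eγ
    have e1 : z * (y⁻¹ * z * y) = y * y := by
      have : z * (y⁻¹ * z * y) = (z * y⁻¹ * z) * y := by group
      rw [this, hy]
    have hs : γ = β * β := by
      apply sq H hγ hβ
      · intro k
        rw [← eγ, e1]
        exact hy2 k
      · exact hcz1
      · rw [← eγ]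
        have a1 : Commute (β⁻¹ * z * β) y := hcy
        have a2 : Commute (β⁻¹ * z * β) z := hcz1
        exact ((a1.inv_right.mul_right a2).mul_right a1)
    rw [eγ, hs]
  have hord : ∀ k : ℕ, x ^ (2 ^ k) ≠ 1 := by
    intro k hk
    have h1 := orderOf_dvd_of_pow_eq_one hk
    rw [hj] at h1
    have h2 := hr.dvd_of_dvd_pow h1
    exact hr2 ((Nat.prime_dvd_prime_iff_eq hr Nat.prime_two).1 h2)
  have p1 := P x hzx2 (by
    intro k hk
    apply hord (k + 1)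
    rw [← pow_two, ← pow_mul] at hk
    rw [pow_succ, mul_comm]
    exact hk) hcx
  have p2 := P x⁻¹ (by rw [inv_inv]; exact hzx') (by
    intro k hk
    apply hord (k + 1)
    rw [← pow_two, ← pow_mul, inv_pow, inv_eq_one] at hk
    rw [pow_succ, mul_comm]
    exact hk) (by
      have a1 : Commute (β⁻¹ * z * β) x := hcx
      exact a1.inv_right)
  rw [inv_inv] at p2
  rw [← p2] at p1
  -- x⁻¹ z x = x z x⁻¹
  apply hord 2
  have e1 : z * (x⁻¹ * z * x) = x * x := by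
    have : z * (x⁻¹ * z * x) = (z * x⁻¹ * z) * x := by group
    rw [this, hzx2]
  have e2 : z * (x * z * x⁻¹) = x⁻¹ * x⁻¹ := by
    have : z * (x * z * x⁻¹) = (z * x * z) * x⁻¹ := by group
    rw [this, hzx']
  rw [p1, e2] at e1
  have e3 : x ^ (2 ^ 2) = (x * x) * (x * x) := by
    rw [show (2 : ℕ) ^ 2 = 4 by norm_num, pow_succ, pow_succ, pow_succ, pow_one, mul_assoc,
      mul_assoc]
  rw [e3]
  nth_rw 1 [← e1]
  group

end Pool.Agent.H3.FK
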