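import Pool.Agent.H84.FK.Targets2

/-!
# Module PER of fk2_modules
-/

set_option autoImplicit false

namespace Pool.Agent.H3.FK

open Pool.Agent.H84.FK

theorem pf_per (hPER2 : T_PER2) : T_PER := by
  intro G _ _ K P p hp hK hPK hPg hPa hidx x hx hc
  refine hPER2 G K P p hp hK hPK hPg hPa (fun h => hidx ?_) x hx hc
  have h1 := Subgroup.relIndex_mul_index hPK
  rw [← h1]
  exact Dvd.dvd.mul_right h _

end Pool.Agent.H3.FK
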